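import Pool.Agent.Lib.MP_9b3446_nt.Defs

set_option autoImplicit false

namespace Pool.Agent.Lib.MP_9b3446_nt

open Polynomial
open scoped NNReal ENNReal

lemma natAbs_coeff_le_height (P : ℤ[X]) (i : ℕ) : (P.coeff i).natAbs ≤ height P := by
  by_cases h : i ∈ P.support
  · exact Finset.le_sup (f := fun i => (P.coeff i).natAbs) h
  · rw [notMem_support_iff.mp h]; simp

lemma abs_coeff_le_height (P : ℤ[X]) (i : ℕ) : |P.coeff i| ≤ (height P : ℤ) := by
  rw [Int.abs_eq_natAbs]; exact_mod_cast natAbs_coeff_le_height P i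

lemma height_le_iff (P : ℤ[X]) (h : ℕ) : height P ≤ h ↔ ∀ i, (P.coeff i).natAbs ≤ h := by
  constructor
  · intro H i; exact (natAbs_coeff_le_height P i).trans H
  · intro H; exact Finset.sup_le fun i _ => H i

lemma one_le_height {P : ℤ[X]} (hP : P ≠ 0) : 1 ≤ height P := by
  have h1 : P.leadingCoeff ≠ 0 := leadingCoeff_ne_zero.mpr hP
  have h2 : 1 ≤ (P.leadingCoeff).natAbs := Int.natAbs_pos.mpr h1
  exact h2.trans (natAbs_coeff_le_height P _)

lemma height_neg (P : ℤ[X]) : height (-P) = height P := by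
  simp [height]

lemma finite_height_le (n h : ℕ) : {P : ℤ[X] | P.natDegree ≤ n ∧ height P ≤ h}.Finite := by
  classical
  have hfin : (Set.pi Set.univ fun _ : Fin (n+1) => Set.Icc (-(h : ℤ)) h).Finite :=
    Set.Finite.pi fun _ => Set.finite_Icc _ _
  let φ : ℤ[X] → (Fin (n+1) → ℤ) := fun P i => P.coeff i
  refine Set.Finite.of_finite_image (f := φ) (hfin.subset ?_) ?_
  · rintro _ ⟨P, ⟨_, hP⟩, rfl⟩
    intro i _
    have := (abs_coeff_le_height P i)
    have h2 : (height P : ℤ) ≤ h := by exact_mod_cast hP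
    exact abs_le.mp (this.trans h2)
  · intro P hP Q hQ hPQ
    ext i
    by_cases hi : i < n + 1
    · have := congrFun hPQ ⟨i, hi⟩
      simpa [φ] using this
    · rw [coeff_eq_zero_of_natDegree_lt, coeff_eq_zero_of_natDegree_lt]
      · exact lt_of_le_of_lt hQ.1 (by omega)
      · exact lt_of_le_of_lt hP.1 (by omega)

lemma norm_aeval_le (P : ℤ[X]) (M : ℕ) (hM : P.natDegree ≤ M) (x : ℂ) (hx : ‖x‖ ≤ 1) :
    ‖aeval x P‖ ≤ (M + 1) * height P := by
  rw [aeval_eq_sum_range' (n := M + 1) (by omega)]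
  calc ‖∑ i ∈ Finset.range (M+1), P.coeff i • x ^ i‖
      ≤ ∑ i ∈ Finset.range (M+1), ‖P.coeff i • x ^ i‖ := norm_sum_le _ _
    _ ≤ ∑ i ∈ Finset.range (M+1), (height P : ℝ) := by
        refine Finset.sum_le_sum fun i _ => ?_
        rw [zsmul_eq_mul, norm_mul, norm_pow]
        have h1 : ‖((P.coeff i : ℤ) : ℂ)‖ ≤ height P := by
          rw [Complex.norm_intCast]
          exact_mod_cast abs_coeff_le_height P i
        have h2 : ‖x‖ ^ i ≤ 1 := pow_le_one₀ (norm_nonneg _) hx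
        calc ‖((P.coeff i : ℤ) : ℂ)‖ * ‖x‖ ^ i ≤ height P * 1 := by gcongr
          _ = _ := by ring
    _ = (M + 1) * height P := by simp

lemma norm_pow_sub_pow_le (x y : ℂ) (hx : ‖x‖ ≤ 2) (hy : ‖y‖ ≤ 2) (i : ℕ) :
    ‖x ^ i - y ^ i‖ ≤ i * 2 ^ i * ‖x - y‖ := by
  induction i with
  | zero => simp
  | succ i ih =>
    have h1 : x ^ (i+1) - y ^ (i+1) = x * (x ^ i - y ^ i) + (x - y) * y ^ i := by ring
    rw [h1]
    have h2 : ‖y‖ ^ i ≤ 2 ^ i := by gcongr
    have h3 : (0 : ℝ) ≤ ‖x - y‖ := norm_nonneg _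
    calc ‖x * (x ^ i - y ^ i) + (x - y) * y ^ i‖
        ≤ ‖x * (x ^ i - y ^ i)‖ + ‖(x - y) * y ^ i‖ := norm_add_le _ _
      _ = ‖x‖ * ‖x ^ i - y ^ i‖ + ‖x - y‖ * ‖y‖ ^ i := by rw [norm_mul, norm_mul, norm_pow]
      _ ≤ 2 * (i * 2 ^ i * ‖x - y‖) + ‖x - y‖ * 2 ^ i := by gcongr
      _ ≤ ((i+1 : ℕ) : ℝ) * 2 ^ (i+1) * ‖x - y‖ := by
          push_cast
          have : (0 : ℝ) ≤ 2 ^ i * ‖x - y‖ := by positivity
          rw [pow_succ]; nlinarith

/-- The Lipschitz constant used. -/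
def lip (M : ℕ) : ℕ := (M + 1) * (M * 2 ^ M)

lemma norm_aeval_sub_le (P : ℤ[X]) (M : ℕ) (hM : P.natDegree ≤ M) (x y : ℂ)
    (hx : ‖x‖ ≤ 2) (hy : ‖y‖ ≤ 2) :
    ‖aeval x P - aeval y P‖ ≤ lip M * height P * ‖x - y‖ := by
  rw [aeval_eq_sum_range' (n := M + 1) (by omega), aeval_eq_sum_range' (n := M + 1) (by omega),
    ← Finset.sum_sub_distrib]
  calc ‖∑ i ∈ Finset.range (M+1), (P.coeff i • x ^ i - P.coeff i • y ^ i)‖
      ≤ ∑ i ∈ Finset.range (M+1), ‖P.coeff i • x ^ i - P.coeff i • y ^ i‖ := norm_sum_le _ _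
    _ ≤ ∑ i ∈ Finset.range (M+1), (height P : ℝ) * ((M * 2 ^ M) * ‖x - y‖) := by
        refine Finset.sum_le_sum fun i hi => ?_
        rw [← smul_sub, zsmul_eq_mul, norm_mul]
        have h1 : ‖((P.coeff i : ℤ) : ℂ)‖ ≤ height P := by
          rw [Complex.norm_intCast]
          exact_mod_cast abs_coeff_le_height P i
        have hi' : i ≤ M := by
          have := Finset.mem_range.mp hi; omega
        have h2 : ‖x ^ i - y ^ i‖ ≤ (M * 2 ^ M) * ‖x - y‖ := by
          refine (norm_pow_sub_pow_le x y hx hy i).trans ?_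
          have : (i : ℝ) ≤ M := by exact_mod_cast hi'
          have h3 : (2 : ℝ) ^ i ≤ 2 ^ M := pow_le_pow_right₀ (by norm_num) hi'
          gcongr
        gcongr
    _ = lip M * height P * ‖x - y‖ := by
        simp [lip]; ring

lemma abs_aeval_sub_le (P : ℤ[X]) (M : ℕ) (hM : P.natDegree ≤ M) (x y : ℝ)
    (hx : |x| ≤ 2) (hy : |y| ≤ 2) :
    |aeval x P - aeval y P| ≤ lip M * height P * |x - y| := by
  have h := norm_aeval_sub_le P M hM (x : ℂ) (y : ℂ) (by simpa using hx) (by simpa using hy)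
  have e1 : aeval (x : ℂ) P - aeval (y : ℂ) P = ((aeval x P - aeval y P : ℝ) : ℂ) := by
    have hx' : aeval (x : ℂ) P = ((aeval x P : ℝ) : ℂ) := by
      simpa using aeval_algebraMap_apply ℂ x P
    have hy' : aeval (y : ℂ) P = ((aeval y P : ℝ) : ℂ) := by
      simpa using aeval_algebraMap_apply ℂ y P
    rw [hx', hy']; push_cast; ring
  rw [e1, Complex.norm_real, Real.norm_eq_abs] at h
  rw [← Complex.ofReal_sub, Complex.norm_real, Real.norm_eq_abs] at h
  exact h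

end Pool.Agent.Lib.MP_9b3446_nt
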