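import Pool.Agent.Lib.MP_9b3446_nt.A

set_option autoImplicit false

namespace Pool.Agent.Lib.MP_9b3446_nt

open Polynomial
open scoped NNReal ENNReal

/-- The binomial polynomial `G X^e - g`. -/
noncomputable def binom (G g e : ℕ) : ℤ[X] := C (G : ℤ) * X ^ e - C (g : ℤ)

lemma aeval_binom_real (G g e : ℕ) (x : ℝ) : aeval x (binom G g e) = G * x ^ e - g := by
  simp [binom]

lemma aeval_binom_complex (G g e : ℕ) (x : ℂ) : aeval x (binom G g e) = G * x ^ e - g := by
  simp [binom]

lemma coeff_binom (G g e i : ℕ) : (binom G g e).coeff i =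
    (if i = e then (G : ℤ) else 0) - (if i = 0 then (g : ℤ) else 0) := by
  rw [binom, coeff_sub, coeff_C_mul, coeff_X_pow, coeff_C]
  simp

lemma natDegree_binom {G g e : ℕ} (hG : 0 < G) (_he : 1 ≤ e) : (binom G g e).natDegree = e := by
  have hG' : (G : ℤ) ≠ 0 := by exact_mod_cast hG.ne'
  unfold binom
  rw [natDegree_sub_C, natDegree_C_mul_X_pow _ _ hG']

lemma leadingCoeff_binom {G g e : ℕ} (hG : 0 < G) (he : 1 ≤ e) :
    (binom G g e).leadingCoeff = G := by
  rw [leadingCoeff, natDegree_binom hG he, coeff_binom]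
  simp; omega

lemma binom_ne_zero {G g e : ℕ} (hG : 0 < G) (he : 1 ≤ e) : binom G g e ≠ 0 := by
  intro h
  have := leadingCoeff_binom (g := g) hG he
  rw [h] at this
  simp at this; omega

lemma height_binom {G g e : ℕ} (hg : g ≤ G) (he : 1 ≤ e) : height (binom G g e) = G := by
  apply le_antisymm
  · rw [height_le_iff]
    intro i
    rw [coeff_binom]
    split_ifs <;> omega
  · have := natAbs_coeff_le_height (binom G g e) e
    rw [coeff_binom] at this
    simpa [show e ≠ 0 by omega] using this

/-- The content of `G X^e - g` is one when `G` and `g` are coprime. -/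
lemma isPrimitive_binom {G g e : ℕ} (he : 1 ≤ e) (hcop : Nat.Coprime G g) :
    (binom G g e).IsPrimitive := by
  rw [isPrimitive_iff_isUnit_of_C_dvd]
  intro r hr
  rw [C_dvd_iff_dvd_coeff] at hr
  have h1 := hr e
  have h2 := hr 0
  rw [coeff_binom] at h1 h2
  simp [show e ≠ 0 by omega] at h1
  simp [show (0 : ℕ) ≠ e by omega] at h2
  have h3 : IsCoprime (G : ℤ) (g : ℤ) := Nat.isCoprime_iff_coprime.mpr hcop
  exact h3.isUnit_of_dvd' h1 h2

/-- Eisenstein at `2`. -/
lemma irreducible_binom {G g e : ℕ} (he : 1 ≤ e) (hcop : Nat.Coprime G g)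
    (hG : G % 2 = 1) (hg : g % 4 = 2) : Irreducible (binom G g e) := by
  have hG0 : 0 < G := by omega
  have hprime : (Ideal.span {(2 : ℤ)}).IsPrime := by
    rw [Ideal.span_singleton_prime (by norm_num)]
    exact Int.prime_two
  refine IsEisensteinAt.irreducible (𝓟 := Ideal.span {(2 : ℤ)}) ?_ hprime
    (isPrimitive_binom he hcop) (by rw [natDegree_binom hG0 he]; omega)
  refine ⟨?_, ?_, ?_⟩
  · rw [leadingCoeff_binom hG0 he, Ideal.mem_span_singleton]; omega
  · intro i hi
    rw [natDegree_binom hG0 he] at hi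
    rw [coeff_binom, Ideal.mem_span_singleton, if_neg (by omega)]
    split_ifs <;> omega
  · rw [coeff_binom, Ideal.span_singleton_pow, Ideal.mem_span_singleton, if_neg (by omega)]
    simp only [if_true]
    omega

/-- Linear case. -/
lemma irreducible_binom_one {G g : ℕ} (hG : 0 < G) (hcop : Nat.Coprime G g) :
    Irreducible (binom G g 1) := by
  have hd : (binom G g 1).natDegree = 1 := natDegree_binom hG le_rfl
  have hprim := isPrimitive_binom (e := 1) le_rfl hcop
  rw [IsPrimitive.Int.irreducible_iff_irreducible_map_cast hprim]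
  apply irreducible_of_degree_eq_one
  rw [degree_map_eq_of_injective (Int.castRingHom ℚ).injective_int]
  rw [degree_eq_natDegree (binom_ne_zero hG le_rfl), hd]; rfl


lemma eval₂_castC (x : ℂ) (Q : ℤ[X]) : eval₂ (Int.castRingHom ℂ) x Q = aeval x Q := by
  rw [aeval_def, algebraMap_int_eq]

/-- Liouville's inequality for the real root `β ∈ [0,1]` of `G X^e - g`. -/
lemma liouville {G g e M : ℕ} (hG : 0 < G) (hg : g ≤ G) (he : 1 ≤ e)
    (hirr : Irreducible (binom G g e)) (hprim : (binom G g e).IsPrimitive)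
    (β : ℝ) (hβ : G * β ^ e = g) (P : ℤ[X]) (hM : P.natDegree ≤ M)
    (hdvd : ¬ binom G g e ∣ P) :
    1 ≤ (G : ℝ) ^ M * |aeval β P| * ((M + 1) * height P) ^ (e - 1) := by
  classical
  set A := binom G g e with hA
  have hAdeg : A.natDegree = e := natDegree_binom hG he
  have hA0 : A ≠ 0 := binom_ne_zero hG he
  -- coprimality over ℚ
  have hirrQ : Irreducible (A.map (Int.castRingHom ℚ)) :=
    (IsPrimitive.Int.irreducible_iff_irreducible_map_cast hprim).mp hirr
  have hndvd : ¬ A.map (Int.castRingHom ℚ) ∣ P.map (Int.castRingHom ℚ) := by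
    intro h
    by_cases hP0 : P = 0
    · exact hdvd (hP0 ▸ dvd_zero _)
    -- P = C content * primPart
    have h2 : A.map (Int.castRingHom ℚ) ∣ P.primPart.map (Int.castRingHom ℚ) := by
      have hc : (P.content : ℤ) ≠ 0 := by
        rwa [Ne, content_eq_zero_iff]
      have h3 := P.eq_C_content_mul_primPart
      rw [h3, Polynomial.map_mul, map_C] at h
      have hu : IsUnit (C ((Int.castRingHom ℚ) P.content)) := by
        rw [isUnit_C]
        apply IsUnit.mk0
        simpa using hc
      exact (hu.dvd_mul_left).mp h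
    have h4 := (IsPrimitive.Int.dvd_iff_map_cast_dvd_map_cast A P.primPart hprim).mpr h2
    exact hdvd (h4.trans P.primPart_dvd)
  have hcop : IsCoprime (A.map (Int.castRingHom ℚ)) (P.map (Int.castRingHom ℚ)) :=
    (hirrQ.coprime_iff_not_dvd).mpr hndvd
  have hres : resultant (A.map (Int.castRingHom ℚ)) (P.map (Int.castRingHom ℚ)) ≠ 0 :=
    resultant_ne_zero _ _ hcop
  have hinjQ : Function.Injective (Int.castRingHom ℚ) := (Int.castRingHom ℚ).injective_int
  have hinjC : Function.Injective (Int.castRingHom ℂ) := (Int.castRingHom ℂ).injective_int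
  have hres2 : resultant A P e P.natDegree ≠ 0 := by
    intro h0
    apply hres
    rw [natDegree_map_eq_of_injective hinjQ, natDegree_map_eq_of_injective hinjQ,
      resultant_map_map, hAdeg, h0]
    simp
  have hres3 : (1 : ℝ) ≤ ‖((resultant A P e P.natDegree : ℤ) : ℂ)‖ := by
    rw [Complex.norm_intCast]
    exact_mod_cast Int.one_le_abs hres2
  -- compute over ℂ
  set AC := A.map (Int.castRingHom ℂ) with hAC
  set PC := P.map (Int.castRingHom ℂ) with hPC
  have hACdeg : AC.natDegree = e := by rw [hAC, natDegree_map_eq_of_injective hinjC, hAdeg]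
  have hAC0 : AC ≠ 0 := by
    rw [hAC]; exact (Polynomial.map_ne_zero_iff hinjC).mpr hA0
  have hcomp : ((resultant A P e P.natDegree : ℤ) : ℂ) =
      AC.leadingCoeff ^ P.natDegree * (AC.roots.map PC.eval).prod := by
    have h1 := resultant_eq_prod_eval AC PC P.natDegree
      (by rw [hPC, natDegree_map_eq_of_injective hinjC]) (IsAlgClosed.splits AC)
    rw [← h1, hACdeg, hAC, hPC, resultant_map_map]
    simp
  have hlead : AC.leadingCoeff = (G : ℂ) := by
    rw [hAC, leadingCoeff_map_of_injective hinjC, leadingCoeff_binom hG he]; simp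
  have hrootmem : (β : ℂ) ∈ AC.roots := by
    rw [mem_roots hAC0, IsRoot.def, hAC, eval_map, eval₂_castC, aeval_binom_complex]
    have : ((G * β ^ e - g : ℝ) : ℂ) = 0 := by rw [hβ]; simp
    simpa using this
  obtain ⟨s, hs⟩ := Multiset.exists_cons_of_mem hrootmem
  have hcard : Multiset.card s = e - 1 := by
    have h1 : Multiset.card AC.roots = e := by
      rw [← hACdeg]; exact (IsAlgClosed.splits AC).natDegree_eq_card_roots.symm
    rw [hs, Multiset.card_cons] at h1; omega
  have hroots : ∀ x ∈ AC.roots, ‖x‖ ≤ 1 := by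
    intro x hx
    rw [mem_roots hAC0, IsRoot.def, hAC, eval_map, eval₂_castC, aeval_binom_complex] at hx
    have h1 : (G : ℂ) * x ^ e = g := by linear_combination hx
    have h2 : (G : ℝ) * ‖x‖ ^ e = g := by
      have := congrArg norm h1
      simpa [norm_mul, norm_pow] using this
    have hG' : (0 : ℝ) < G := by exact_mod_cast hG
    have h3 : ‖x‖ ^ e ≤ 1 := by
      have : (g : ℝ) ≤ G := by exact_mod_cast hg
      by_contra hcon
      push Not at hcon
      nlinarith
    exact (pow_le_one_iff_of_nonneg (norm_nonneg _) (by omega)).mp h3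
  have hprod : ‖(s.map PC.eval).prod‖ ≤ ((M + 1) * height P) ^ (e - 1) := by
    rw [← hcard]
    have hs' : ∀ x ∈ s, ‖x‖ ≤ 1 := fun x hx => hroots x (by rw [hs]; exact Multiset.mem_cons_of_mem hx)
    clear hs hcard
    induction s using Multiset.induction with
    | empty => simp
    | cons a t ih =>
      rw [Multiset.map_cons, Multiset.prod_cons, Multiset.card_cons, norm_mul, pow_succ']
      have h1 : ‖PC.eval a‖ ≤ (M + 1) * height P := by
        rw [hPC, eval_map, eval₂_castC]
        exact norm_aeval_le P M hM a (hs' a (Multiset.mem_cons_self a t))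
      have h2 := ih (fun x hx => hs' x (Multiset.mem_cons_of_mem hx))
      gcongr
  rw [hcomp, hlead, hs, Multiset.map_cons, Multiset.prod_cons, norm_mul, norm_mul, norm_pow] at hres3
  have hbeta : ‖PC.eval (β : ℂ)‖ = |aeval β P| := by
    rw [hPC, eval_map, eval₂_castC]
    have : aeval (β : ℂ) P = ((aeval β P : ℝ) : ℂ) := by
      simpa using aeval_algebraMap_apply ℂ β P
    rw [this, Complex.norm_real, Real.norm_eq_abs]
  rw [hbeta] at hres3
  have hG1 : (1 : ℝ) ≤ G := by exact_mod_cast hG
  calc (1 : ℝ) ≤ ‖(G : ℂ)‖ ^ P.natDegree * (|aeval β P| * ‖(s.map PC.eval).prod‖) := hres3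
    _ ≤ (G : ℝ) ^ M * (|aeval β P| * ((M + 1) * height P) ^ (e - 1)) := by
        have h1 : ‖(G : ℂ)‖ = G := by simp
        rw [h1]
        have h2 : (G : ℝ) ^ P.natDegree ≤ (G : ℝ) ^ M := pow_le_pow_right₀ hG1 hM
        gcongr
    _ = _ := by ring

end Pool.Agent.Lib.MP_9b3446_nt
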