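import Pool.Agent.Lib.MP_9b3446_nt.B

set_option autoImplicit false

namespace Pool.Agent.Lib.MP_9b3446_nt

open Polynomial
open scoped NNReal ENNReal

lemma coeff_binom_mul (G g e : ℕ) (Q : ℤ[X]) (j : ℕ) :
    (binom G g e * Q).coeff (j + e) = G * Q.coeff j - g * Q.coeff (j + e) := by
  rw [binom, sub_mul, coeff_sub, mul_assoc, coeff_C_mul, coeff_X_pow_mul, coeff_C_mul]

lemma height_quotient {G g e : ℕ} (hg : g ≤ G) (he : 1 ≤ e) (Q : ℤ[X]) (M : ℕ)
    (hM : Q.natDegree < M) : G * height Q ≤ M * height (binom G g e * Q) := by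
  set P := binom G g e * Q with hP
  have key : ∀ t j : ℕ, Q.natDegree < j + t → G * (Q.coeff j).natAbs ≤ t * height P := by
    intro t
    induction t with
    | zero =>
      intro j hj
      rw [coeff_eq_zero_of_natDegree_lt (by omega)]; simp
    | succ t ih =>
      intro j hj
      have h1 := ih (j + e) (by omega)
      have h2 := natAbs_coeff_le_height P (j + e)
      have h3 : (G : ℤ) * Q.coeff j = P.coeff (j + e) + g * Q.coeff (j + e) := by
        rw [hP, coeff_binom_mul]; ring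
      have h4 : G * (Q.coeff j).natAbs ≤ (P.coeff (j + e)).natAbs + g * (Q.coeff (j+e)).natAbs := by
        have := congrArg Int.natAbs h3
        rw [Int.natAbs_mul, Int.natAbs_natCast] at this
        rw [this]
        refine (Int.natAbs_add_le _ _).trans ?_
        rw [Int.natAbs_mul, Int.natAbs_natCast]
      calc G * (Q.coeff j).natAbs ≤ (P.coeff (j + e)).natAbs + g * (Q.coeff (j+e)).natAbs := h4
        _ ≤ height P + G * (Q.coeff (j+e)).natAbs := by gcongr
        _ ≤ height P + t * height P := by gcongr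
        _ = (t + 1) * height P := by ring
  obtain hG0 | hG0 := Nat.eq_zero_or_pos G
  · simp [hG0]
  have : height Q ≤ (M * height P) / G := by
    rw [height_le_iff]
    intro i
    rw [Nat.le_div_iff_mul_le hG0, mul_comm]
    exact key M i (by omega)
  rw [Nat.le_div_iff_mul_le hG0] at this
  rw [mul_comm]; exact this

lemma exists_index {M κ L K : ℕ} {G D : ℕ → ℕ} (hL : 1 ≤ L)
    (hGD : ∀ i, G i ^ M ≤ D i ^ L)
    (hD0 : 2 ≤ D 0) (hD : ∀ i, D i ^ (2 * L) ≤ D (i+1)) (H : ℕ) (hH : 1 ≤ H) :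
    ∃ i, K * H ^ κ * D i ^ L ≤ D (i+1) ∧
      G i ^ M ≤ (G 0 ^ M + K ^ (2 * L)) * H ^ (2 * κ * L) := by
  classical
  have hDi : ∀ i, i + 2 ≤ D i := by
    intro i
    induction i with
    | zero => simpa using hD0
    | succ i ih =>
      have h1 : D i ^ 2 ≤ D i ^ (2 * L) := Nat.pow_le_pow_right (by omega) (by omega)
      have h2 := hD i
      nlinarith
  have hex : ∃ i, K * H ^ κ * D i ^ L ≤ D (i+1) := by
    refine ⟨K * H ^ κ, ?_⟩
    set i := K * H ^ κ with hi
    have h1 : i ≤ D i ^ L := by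
      have := hDi i
      have h2 : D i ^ 1 ≤ D i ^ L := Nat.pow_le_pow_right (by omega) hL
      rw [pow_one] at h2; omega
    calc i * D i ^ L ≤ D i ^ L * D i ^ L := by gcongr
      _ = D i ^ (2 * L) := by rw [← pow_add]; congr 1; ring
      _ ≤ D (i+1) := hD i
  refine ⟨Nat.find hex, Nat.find_spec hex, ?_⟩
  have hHp : 1 ≤ H ^ (2 * κ * L) := Nat.one_le_pow _ _ hH
  rcases hi0 : Nat.find hex with _ | j
  · calc G 0 ^ M ≤ (G 0 ^ M + K ^ (2 * L)) * 1 := by omega
      _ ≤ _ := by gcongr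
  · have hmin := Nat.find_min hex (m := j) (by omega)
    push Not at hmin
    have h1 := hD j
    have h2 : D j ^ L < K * H ^ κ := by
      have h3 : D j ^ L * D j ^ L < K * H ^ κ * D j ^ L := by
        calc D j ^ L * D j ^ L = D j ^ (2 * L) := by rw [← pow_add]; congr 1; ring
          _ ≤ D (j+1) := h1
          _ < _ := hmin
      exact Nat.lt_of_mul_lt_mul_right h3
    have h4 : D (j+1) ≤ (K * H ^ κ) ^ 2 := by
      calc D (j+1) ≤ K * H ^ κ * D j ^ L := hmin.le
        _ ≤ K * H ^ κ * (K * H ^ κ) := by gcongr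
        _ = _ := by ring
    calc G (j+1) ^ M ≤ D (j+1) ^ L := hGD _
      _ ≤ ((K * H ^ κ) ^ 2) ^ L := by gcongr
      _ = K ^ (2 * L) * H ^ (2 * κ * L) := by
          rw [← pow_mul, mul_pow, ← pow_mul]; congr 2; ring
      _ ≤ _ := by gcongr; omega

theorem lower_bound {M κ L : ℕ} {w ζ : ℝ} {G g e D : ℕ → ℕ} {β : ℕ → ℝ} {Cc c : ℝ}
    (hκ : 1 ≤ κ) (hL : 1 ≤ L)
    (hζ : 0 ≤ ζ ∧ ζ ≤ 1) (hβ01 : ∀ i, 0 ≤ β i ∧ β i ≤ 1)
    (hc : 0 < c)
    (hG : ∀ i, 0 < G i) (hg : ∀ i, g i ≤ G i) (he : ∀ i, 1 ≤ e i) (heκ : ∀ i, e i ≤ κ)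
    (hirr : ∀ i, Irreducible (binom (G i) (g i) (e i)))
    (hprim : ∀ i, (binom (G i) (g i) (e i)).IsPrimitive)
    (hβ : ∀ i, (G i : ℝ) * β i ^ e i = g i)
    (hclose : ∀ i, |ζ - β i| * D (i+1) ≤ Cc)
    (hlow : ∀ i, c * (G i : ℝ) ^ (-w) ≤ |(G i : ℝ) * ζ ^ e i - g i|)
    (hGD : ∀ i, G i ^ M ≤ D i ^ L)
    (hD0 : 2 ≤ D 0) (hD : ∀ i, D i ^ (2 * L) ≤ D (i+1))
    (hw : ((2 * κ * L + κ : ℕ) : ℝ) ≤ w) :
    ∃ c' : ℝ, 0 < c' ∧ ∀ P : ℤ[X], P ≠ 0 → P.natDegree ≤ M →
      c' * (height P : ℝ) ^ (-w) ≤ |aeval ζ P| := by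
  have hw0 : 0 ≤ w := le_trans (by positivity) hw
  obtain ⟨K, hK⟩ : ∃ K : ℕ, 2 * (lip M : ℝ) * Cc * (M + 1) ^ (κ - 1) ≤ K := exists_nat_ge _
  set C3 : ℕ := G 0 ^ M + K ^ (2 * L) with hC3
  have hC3pos : 1 ≤ C3 := by
    have : 1 ≤ G 0 ^ M := Nat.one_le_pow _ _ (hG 0)
    omega
  -- non-divisible case
  have hnd : ∀ P : ℤ[X], P ≠ 0 → P.natDegree ≤ M → ∀ i,
      K * height P ^ κ * D i ^ L ≤ D (i+1) → G i ^ M ≤ C3 * height P ^ (2 * κ * L) →
      ¬ binom (G i) (g i) (e i) ∣ P →
      (1 / (2 * (C3 * (M + 1) ^ (κ - 1)) : ℝ)) * (height P : ℝ) ^ (-w) ≤ |aeval ζ P| := by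
    intro P hP hPM i h1 h2 hdvd
    have hH1 : 1 ≤ height P := one_le_height hP
    have hH1' : (1 : ℝ) ≤ height P := by exact_mod_cast hH1
    have hGi : (0 : ℝ) < G i := by exact_mod_cast hG i
    have hli := liouville (hG i) (hg i) (he i) (hirr i) (hprim i) (β i) (hβ i) P hPM hdvd
    set T : ℝ := (G i : ℝ) ^ M * ((M + 1) * height P) ^ (κ - 1) with hT
    have hTpos : 0 < T := by positivity
    have hMH : (1 : ℝ) ≤ (M + 1) * height P := by
      have : (1 : ℝ) ≤ (M : ℝ) + 1 := by linarith [(Nat.cast_nonneg M : (0 : ℝ) ≤ M)]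
      nlinarith
    have h3 : 1 ≤ T * |aeval (β i) P| := by
      refine hli.trans ?_
      rw [hT]
      have : ((M + 1) * height P : ℝ) ^ (e i - 1) ≤ ((M + 1) * height P) ^ (κ - 1) :=
        pow_le_pow_right₀ hMH (by have := heκ i; omega)
      calc (G i : ℝ) ^ M * |aeval (β i) P| * ((M + 1) * height P) ^ (e i - 1)
          ≤ (G i : ℝ) ^ M * |aeval (β i) P| * ((M + 1) * height P) ^ (κ - 1) := by gcongr
        _ = _ := by ring
    have hlips := abs_aeval_sub_le P M hPM ζ (β i) (by rw [abs_le]; constructor <;> linarith)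
      (by rw [abs_le]; constructor <;> linarith [(hβ01 i).1, (hβ01 i).2])
    have hDpos : (0 : ℝ) < D (i+1) := by
      have : 1 ≤ D (i+1) := by
        by_contra hcon
        have hz : D (i+1) = 0 := by omega
        have hDi : ∀ j, 2 ≤ D j := by
          intro j
          induction j with
          | zero => exact hD0
          | succ j ih =>
            have h1 : D j ^ 1 ≤ D j ^ (2 * L) := Nat.pow_le_pow_right (by omega) (by omega)
            rw [pow_one] at h1
            exact ih.trans (h1.trans (hD j))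
        have := hDi (i+1); omega
      exact_mod_cast this
    have h4 : 2 * T * (lip M * height P * |ζ - β i|) ≤ 1 := by
      have h5 : 2 * T * (lip M * height P) * Cc ≤ D (i+1) := by
        have h6 : (G i : ℝ) ^ M ≤ (D i : ℝ) ^ L := by exact_mod_cast hGD i
        have h7 : (K : ℝ) * (height P : ℝ) ^ κ * (D i : ℝ) ^ L ≤ D (i+1) := by exact_mod_cast h1
        calc 2 * T * (lip M * height P) * Cc
            = (2 * (lip M : ℝ) * Cc * (M + 1) ^ (κ - 1)) * ((height P : ℝ) ^ (κ - 1) * height P)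
                * (G i : ℝ) ^ M := by
              rw [hT, mul_pow]; ring
          _ = (2 * (lip M : ℝ) * Cc * (M + 1) ^ (κ - 1)) * (height P : ℝ) ^ κ
                * (G i : ℝ) ^ M := by
              rw [← pow_succ, Nat.sub_add_cancel hκ]
          _ ≤ K * (height P : ℝ) ^ κ * (D i : ℝ) ^ L := by gcongr
          _ ≤ _ := h7
      have h8 := hclose i
      have h9 : |ζ - β i| ≤ Cc / D (i+1) := by rwa [le_div_iff₀ hDpos]
      calc 2 * T * (lip M * height P * |ζ - β i|)
          ≤ 2 * T * (lip M * height P * (Cc / D (i+1))) := by gcongr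
        _ = (2 * T * (lip M * height P) * Cc) / D (i+1) := by ring
        _ ≤ D (i+1) / D (i+1) := by gcongr
        _ = 1 := div_self hDpos.ne'
    have h10 : 1 ≤ 2 * T * |aeval ζ P| := by
      have h11 : |aeval (β i) P| ≤ |aeval ζ P| + |aeval ζ P - aeval (β i) P| := by
        have := abs_sub_abs_le_abs_sub (aeval (β i) P) (aeval ζ P)
        rw [abs_sub_comm (aeval (β i) P)] at this
        linarith
      have h12 : 2 * T * |aeval ζ P - aeval (β i) P| ≤ 1 := by
        refine le_trans ?_ h4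
        gcongr
      have h13 : 2 ≤ 2 * T * |aeval (β i) P| := by linarith
      have h14 : 2 * T * |aeval (β i) P| ≤ 2 * T * |aeval ζ P| + 2 * T * |aeval ζ P - aeval (β i) P| := by
        rw [← mul_add]; gcongr
      linarith
    have h15 : T ≤ C3 * (M + 1) ^ (κ - 1) * (height P : ℝ) ^ w := by
      have h16 : (G i : ℝ) ^ M ≤ C3 * (height P : ℝ) ^ (2 * κ * L) := by exact_mod_cast h2
      calc T = (G i : ℝ) ^ M * ((M + 1) ^ (κ - 1) * (height P : ℝ) ^ (κ - 1)) := by
            rw [hT, mul_pow]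
        _ ≤ (C3 * (height P : ℝ) ^ (2 * κ * L)) * ((M + 1) ^ (κ - 1) * (height P : ℝ) ^ (κ - 1)) := by
            gcongr
        _ = C3 * (M + 1) ^ (κ - 1) * (height P : ℝ) ^ (2 * κ * L + (κ - 1)) := by
            rw [pow_add]; ring
        _ ≤ C3 * (M + 1) ^ (κ - 1) * (height P : ℝ) ^ w := by
            gcongr
            rw [← Real.rpow_natCast]
            apply Real.rpow_le_rpow_of_exponent_le hH1'
            refine le_trans ?_ hw
            exact_mod_cast (by omega : 2 * κ * L + (κ - 1) ≤ 2 * κ * L + κ)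
    have hHw : 0 < (height P : ℝ) ^ w := Real.rpow_pos_of_pos (by linarith) _
    rw [Real.rpow_neg (by linarith), one_div, ← mul_inv]
    have hC3' : (0 : ℝ) < C3 := by exact_mod_cast hC3pos
    rw [inv_le_iff_one_le_mul₀ (by positivity)]
    calc 1 ≤ 2 * T * |aeval ζ P| := h10
      _ ≤ 2 * (C3 * (M + 1) ^ (κ - 1) * (height P : ℝ) ^ w) * |aeval ζ P| := by gcongr
      _ = _ := by ring
  -- induction on the degree
  have main : ∀ d : ℕ, ∃ c' : ℝ, 0 < c' ∧ ∀ P : ℤ[X], P ≠ 0 → P.natDegree ≤ d → P.natDegree ≤ M →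
      c' * (height P : ℝ) ^ (-w) ≤ |aeval ζ P| := by
    intro d
    have hC3' : (0 : ℝ) < C3 := by exact_mod_cast hC3pos
    induction d with
    | zero =>
      refine ⟨1 / (2 * (C3 * (M + 1) ^ (κ - 1)) : ℝ), by positivity, ?_⟩
      intro P hP h0 hPM
      obtain ⟨i, hi1, hi2⟩ := exists_index (κ := κ) (K := K) hL hGD hD0 hD (height P) (one_le_height hP)
      refine hnd P hP hPM i hi1 hi2 ?_
      intro hdvd
      have := natDegree_le_of_dvd hdvd hP
      rw [natDegree_binom (hG i) (he i)] at this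
      have := he i; omega
    | succ d ih =>
      obtain ⟨cd, hcd, ih⟩ := ih
      refine ⟨min (1 / (2 * (C3 * (M + 1) ^ (κ - 1)) : ℝ)) (c * cd * ((M + 1 : ℕ) : ℝ) ^ (-w)),
        by positivity, ?_⟩
      intro P hP hPd hPM
      obtain ⟨i, hi1, hi2⟩ := exists_index (κ := κ) (K := K) hL hGD hD0 hD (height P) (one_le_height hP)
      by_cases hdvd : binom (G i) (g i) (e i) ∣ P
      · obtain ⟨Q, rfl⟩ := hdvd
        have hQ : Q ≠ 0 := right_ne_zero_of_mul hP
        have hA : binom (G i) (g i) (e i) ≠ 0 := left_ne_zero_of_mul hP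
        have hdeg := natDegree_mul hA hQ
        rw [natDegree_binom (hG i) (he i)] at hdeg
        have hei := he i
        have h1 := ih Q hQ (by omega) (by omega)
        have h2 := hlow i
        have h3 := height_quotient (hg i) (he i) Q (M + 1) (by omega)
        have hHQ : (1 : ℝ) ≤ height Q := by exact_mod_cast one_le_height hQ
        have hHP : (1 : ℝ) ≤ height (binom (G i) (g i) (e i) * Q) := by
          exact_mod_cast one_le_height hP
        have hGi : (0 : ℝ) < G i := by exact_mod_cast hG i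
        have h4 : (((M + 1 : ℕ) : ℝ) * height (binom (G i) (g i) (e i) * Q)) ^ (-w) ≤
            ((G i : ℝ) * height Q) ^ (-w) := by
          apply Real.rpow_le_rpow_of_nonpos (by positivity) _ (by linarith)
          exact_mod_cast h3
        rw [Real.mul_rpow (by positivity) (by positivity),
          Real.mul_rpow (by positivity) (by positivity)] at h4
        rw [map_mul, abs_mul, aeval_binom_real]
        calc min (1 / (2 * (C3 * (M + 1) ^ (κ - 1)) : ℝ)) (c * cd * ((M + 1 : ℕ) : ℝ) ^ (-w)) *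
              (height (binom (G i) (g i) (e i) * Q) : ℝ) ^ (-w)
            ≤ (c * cd * ((M + 1 : ℕ) : ℝ) ^ (-w)) *
              (height (binom (G i) (g i) (e i) * Q) : ℝ) ^ (-w) := by
              gcongr
              exact min_le_right _ _
          _ = c * cd * (((M + 1 : ℕ) : ℝ) ^ (-w) *
              (height (binom (G i) (g i) (e i) * Q) : ℝ) ^ (-w)) := by ring
          _ ≤ c * cd * ((G i : ℝ) ^ (-w) * (height Q : ℝ) ^ (-w)) := by gcongr
          _ = (c * (G i : ℝ) ^ (-w)) * (cd * (height Q : ℝ) ^ (-w)) := by ring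
          _ ≤ |(G i : ℝ) * ζ ^ e i - g i| * |aeval ζ Q| := by gcongr
      · refine le_trans ?_ (hnd P hP hPM i hi1 hi2 hdvd)
        gcongr
        exact min_le_left _ _
  obtain ⟨c', hc', h⟩ := main M
  exact ⟨c', hc', fun P hP hPM => h P hP hPM hPM⟩

end Pool.Agent.Lib.MP_9b3446_nt
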