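import Pool.Agent.Lib.MP_9b3446_nt.C

set_option autoImplicit false

namespace Pool.Agent.Lib.MP_9b3446_nt

open Polynomial
open scoped NNReal ENNReal

lemma exists_num (k e D : ℕ) (he : 1 ≤ e) (hek : e ≤ k) (y δ : ℝ) (hy : 1/2 ≤ y) (hδ : 0 < δ)
    (hD : 12 * 2 ^ k ≤ D * δ) (hD2 : 2 ≤ D * y ^ e) :
    ∃ a : ℕ, a % 12 = 2 ∧ ∃ α : ℝ, y ≤ α ∧ α ≤ y + δ ∧ (D : ℝ) * α ^ e = a := by
  have hD0 : (0 : ℝ) < D := by
    by_contra h
    have : (D : ℝ) = 0 := le_antisymm (not_lt.mp h) (Nat.cast_nonneg D)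
    rw [this] at hD2; norm_num at hD2
  have h1 : (y + δ) ^ e ≥ y ^ e + δ * (1/2) ^ k := by
    obtain ⟨e', rfl⟩ : ∃ e', e = e' + 1 := ⟨e - 1, by omega⟩
    have h2 : y ^ e' ≤ (y + δ) ^ e' := by gcongr; linarith
    have h3 : (1/2 : ℝ) ^ k ≤ y ^ e' := by
      calc (1/2 : ℝ) ^ k ≤ (1/2) ^ e' := pow_le_pow_of_le_one (by norm_num) (by norm_num) (by omega)
        _ ≤ y ^ e' := by gcongr
    calc (y + δ) ^ (e' + 1) = (y + δ) ^ e' * (y + δ) := pow_succ _ _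
      _ ≥ y ^ e' * (y + δ) := by
          have : 0 < y + δ := by linarith
          gcongr
      _ = y ^ (e' + 1) + δ * y ^ e' := by ring
      _ ≥ y ^ (e' + 1) + δ * (1/2) ^ k := by gcongr
  have h2 : D * y ^ e + 12 ≤ D * (y + δ) ^ e := by
    have h3 : 12 ≤ D * (δ * (1/2) ^ k) := by
      have h4 : (2 : ℝ) ^ k * (1/2) ^ k = 1 := by rw [← mul_pow]; norm_num
      have h5 : (0 : ℝ) < (1/2) ^ k := by positivity
      calc (12 : ℝ) = 12 * 2 ^ k * (1/2) ^ k := by rw [mul_assoc, h4]; ring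
        _ ≤ D * δ * (1/2) ^ k := by gcongr
        _ = _ := by ring
    nlinarith
  set t : ℝ := (D * y ^ e - 2) / 12 with ht
  have ht0 : 0 ≤ t := by rw [ht]; apply div_nonneg <;> linarith
  refine ⟨12 * ⌈t⌉₊ + 2, by omega, ?_⟩
  have h3 : D * y ^ e ≤ ((12 * ⌈t⌉₊ + 2 : ℕ) : ℝ) := by
    push_cast
    have := Nat.le_ceil t
    linarith
  have h4 : ((12 * ⌈t⌉₊ + 2 : ℕ) : ℝ) ≤ D * (y + δ) ^ e := by
    push_cast
    have := Nat.ceil_lt_add_one ht0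
    linarith
  set a : ℕ := 12 * ⌈t⌉₊ + 2 with ha
  have ha0 : (0 : ℝ) ≤ (a : ℝ) / D := by positivity
  refine ⟨((a : ℝ) / D) ^ ((e : ℝ)⁻¹), ?_, ?_, ?_⟩
  · have h5 : (((a : ℝ) / D) ^ ((e : ℝ)⁻¹)) ^ e = a / D := Real.rpow_inv_natCast_pow ha0 (by omega)
    have h6 : y ^ e ≤ (((a : ℝ) / D) ^ ((e : ℝ)⁻¹)) ^ e := by
      rw [h5, le_div_iff₀ hD0]; linarith
    exact le_of_pow_le_pow_left₀ (by omega) (by positivity) h6
  · have h5 : (((a : ℝ) / D) ^ ((e : ℝ)⁻¹)) ^ e = a / D := Real.rpow_inv_natCast_pow ha0 (by omega)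
    have h6 : (((a : ℝ) / D) ^ ((e : ℝ)⁻¹)) ^ e ≤ (y + δ) ^ e := by
      rw [h5, div_le_iff₀ hD0]; linarith
    exact le_of_pow_le_pow_left₀ (by omega) (by positivity) h6
  · rw [Real.rpow_inv_natCast_pow ha0 (by omega)]
    field_simp

/-- The radius attached to a denominator `3^m` and an exponent `u`. -/
noncomputable def rad (m : ℕ) (u : ℝ) : ℝ := ((3 : ℝ) ^ m) ^ (-(u + 1))

lemma rad_pos (m : ℕ) (u : ℝ) : 0 < rad m u := by unfold rad; positivity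

lemma rad_le (m : ℕ) (u : ℝ) (hu : 0 ≤ u) : rad m u * 3 ^ m ≤ 1 := by
  unfold rad
  have h3 : (1 : ℝ) ≤ 3 ^ m := one_le_pow₀ (by norm_num)
  have h0 : (0 : ℝ) < 3 ^ m := by positivity
  calc ((3 : ℝ) ^ m) ^ (-(u + 1)) * 3 ^ m = ((3 : ℝ) ^ m) ^ (-(u + 1)) * ((3 : ℝ) ^ m) ^ (1 : ℝ) := by
        rw [Real.rpow_one]
    _ = ((3 : ℝ) ^ m) ^ (-u) := by rw [← Real.rpow_add h0]; congr 1; ring
    _ ≤ 1 := Real.rpow_le_one_of_one_le_of_nonpos h3 (by linarith)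

lemma step (k e : ℕ) (he : 1 ≤ e) (hek : e ≤ k) (u : ℝ) (hu : 0 ≤ u) (α r z : ℝ)
    (hα : 1/2 ≤ α) (hr : 0 < r) (hr1 : r ≤ 1) :
    ∃ m a : ℕ, ∃ α' : ℝ, a % 12 = 2 ∧ (3 : ℝ) ^ m * α' ^ e = a ∧ α + r ≤ α' + rad m u ∧
      α + r ≤ α' ∧
      α' + 2 * rad m u ≤ α + 2 * r ∧ 1 ≤ r * 3 ^ m ∧ r * 3 ^ m ≤ 3 * (240 * 2 ^ k) ∧
      ¬ (α' + rad m u ≤ z ∧ z ≤ α' + 2 * rad m u) := by
  set C0 : ℝ := 240 * 2 ^ k with hC0
  have h2k : (1 : ℝ) ≤ 2 ^ k := one_le_pow₀ (by norm_num)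
  have hC0' : (240 : ℝ) ≤ C0 := by rw [hC0]; nlinarith
  have h1 : 1 ≤ C0 / r := by rw [le_div_iff₀ hr]; linarith
  obtain ⟨m, hm1, hm2⟩ := exists_nat_pow_near h1 (by norm_num : (1 : ℝ) < 3)
  have hm1' : r * 3 ^ m ≤ C0 := by
    rw [le_div_iff₀ hr] at hm1; linarith
  have hm2' : C0 < r * 3 ^ (m+1) := by
    rw [div_lt_iff₀ hr] at hm2; linarith
  have hup : r * 3 ^ (m+1) ≤ 3 * C0 := by rw [pow_succ]; linarith
  have hrad := rad_le (m+1) u hu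
  have hradpos := rad_pos (m+1) u
  have hrad2 : rad (m+1) u ≤ r / 100 := by
    have h3 : (0 : ℝ) < 3 ^ (m+1) := by positivity
    have h4 : rad (m+1) u ≤ 1 / 3 ^ (m+1) := by rw [le_div_iff₀ h3]; exact hrad
    have h5 : 1 / 3 ^ (m+1) ≤ r / 100 := by
      rw [div_le_div_iff₀ h3 (by norm_num)]
      linarith
    exact h4.trans h5
  -- choose window
  obtain ⟨y, hy1, hy2, hy3⟩ : ∃ y : ℝ, α + r ≤ y ∧ y + r/10 + r/50 ≤ α + 2 * r ∧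
      (z < y ∨ y + r / 10 + r/50 < z) := by
    by_cases hz : z ≤ α + 3/2 * r
    · exact ⟨α + 8/5 * r, by linarith, by linarith, Or.inl (by linarith)⟩
    · push Not at hz
      exact ⟨α + 6/5 * r, by linarith, by linarith, Or.inr (by linarith)⟩
  have hcast : (((3 : ℕ) ^ (m+1) : ℕ) : ℝ) = (3 : ℝ) ^ (m+1) := by push_cast; ring
  have hD1 : 12 * 2 ^ k ≤ (((3 : ℕ) ^ (m+1) : ℕ) : ℝ) * (r / 10) := by
    rw [hcast]
    have : C0 / 10 ≤ 3 ^ (m+1) * (r / 10) := by linarith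
    rw [hC0] at this
    nlinarith
  have hD2 : 2 ≤ (((3 : ℕ) ^ (m+1) : ℕ) : ℝ) * y ^ e := by
    rw [hcast]
    have h3 : (1/2 : ℝ) ^ k ≤ y ^ e := by
      calc (1/2 : ℝ) ^ k ≤ (1/2) ^ e := pow_le_pow_of_le_one (by norm_num) (by norm_num) hek
        _ ≤ y ^ e := by gcongr; linarith
    have h4 : (2 : ℝ) ^ k * (1/2) ^ k = 1 := by rw [← mul_pow]; norm_num
    have h5 : C0 ≤ 3 ^ (m+1) := by
      have : r * 3 ^ (m+1) ≤ 1 * 3 ^ (m+1) := by gcongr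
      linarith
    calc (2 : ℝ) ≤ 240 * (2 ^ k * (1/2) ^ k) := by rw [h4]; norm_num
      _ = C0 * (1/2) ^ k := by rw [hC0]; ring
      _ ≤ 3 ^ (m+1) * y ^ e := by gcongr
  obtain ⟨a, ha, α', h1', h2', h3'⟩ := exists_num k e (3 ^ (m+1)) he hek y (r/10) (by linarith)
    (by linarith) hD1 hD2
  refine ⟨m+1, a, α', ha, ?_, by linarith, by linarith, by linarith, by linarith, by linarith, ?_⟩
  · rw [← h3', hcast]
  · rintro ⟨hz1, hz2⟩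
    rcases hy3 with h | h <;> linarith

theorem exists_seq (k : ℕ) (e : ℕ → ℕ) (he : ∀ i, 1 ≤ e i) (hek : ∀ i, e i ≤ k) (he0 : e 0 = 1)
    (u : ℕ → ℝ) (hu : ∀ i, 0 ≤ u i) :
    ∃ (m a : ℕ → ℕ) (α : ℕ → ℝ) (ξ : ℝ), Transcendental ℚ ξ ∧ ξ ≤ 1 ∧ (∀ i, 1/2 ≤ α i) ∧
      (∀ i, (3 : ℝ) ^ m i * α i ^ e i = a i) ∧ (∀ i, a i % 12 = 2) ∧ m 0 = 4 ∧
      (∀ i, α i + rad (m i) (u i) ≤ ξ) ∧ (∀ i, ξ ≤ α i + 2 * rad (m i) (u i)) ∧
      (∀ i, 1 ≤ rad (m i) (u i) * 3 ^ m (i+1)) ∧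
      (∀ i, rad (m i) (u i) * 3 ^ m (i+1) ≤ 3 * (240 * 2 ^ k)) := by
  classical
  -- enumeration of the algebraic reals
  obtain ⟨z, hz⟩ : ∃ z : ℕ → ℝ, {x : ℝ | IsAlgebraic ℚ x} = Set.range z := by
    apply Set.Countable.exists_eq_range (Algebraic.countable ℚ ℝ)
    exact ⟨0, isAlgebraic_zero⟩
  -- states
  let St := {s : ℕ × ℕ × ℝ // True}
  let Good : ℕ → (ℕ × ℕ × ℝ) → Prop := fun i s =>
    1/2 ≤ s.2.2 ∧ rad s.1 (u i) ≤ 1 ∧ (3 : ℝ) ^ s.1 * s.2.2 ^ e i = s.2.1 ∧ s.2.1 % 12 = 2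
  let Next : ℕ → (ℕ × ℕ × ℝ) → (ℕ × ℕ × ℝ) → Prop := fun i s s' =>
    s.2.2 + rad s.1 (u i) ≤ s'.2.2 + rad s'.1 (u (i+1)) ∧
    s'.2.2 + 2 * rad s'.1 (u (i+1)) ≤ s.2.2 + 2 * rad s.1 (u i) ∧
    1 ≤ rad s.1 (u i) * 3 ^ s'.1 ∧ rad s.1 (u i) * 3 ^ s'.1 ≤ 3 * (240 * 2 ^ k) ∧
    ¬ (s'.2.2 + rad s'.1 (u (i+1)) ≤ z i ∧ z i ≤ s'.2.2 + 2 * rad s'.1 (u (i+1)))
  have hstep : ∀ i s, Good i s → ∃ s', Good (i+1) s' ∧ Next i s s' := by
    rintro i ⟨m, a, α⟩ ⟨h1, h2, h3, h4⟩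
    obtain ⟨m', a', α', g1, g2, g3, g4, g5, g6, g7, g8⟩ :=
      step k (e (i+1)) (he _) (hek _) (u (i+1)) (hu _) α (rad m (u i)) (z i) h1 (rad_pos _ _) h2
    refine ⟨⟨m', a', α'⟩, ⟨?_, ?_, g2, g1⟩, ⟨g3, g5, g6, g7, g8⟩⟩
    · have := rad_pos m (u i)
      simp only at h1 ⊢
      linarith
    · have := rad_le m' (u (i+1)) (hu _)
      have h3 : (1 : ℝ) ≤ 3 ^ m' := one_le_pow₀ (by norm_num)
      have h4 := rad_pos m' (u (i+1))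
      simp only
      nlinarith
  choose! f hf1 hf2 using hstep
  have h0 : Good 0 (4, 50, 50/81) := by
    refine ⟨by norm_num, ?_, ?_, by norm_num⟩
    · have := rad_le 4 (u 0) (hu 0)
      have h4 := rad_pos 4 (u 0)
      norm_num at this ⊢
      linarith
    · rw [he0]; norm_num
  let sq : ℕ → (ℕ × ℕ × ℝ) := fun i => Nat.rec (4, 50, 50/81) (fun i s => f i s) i
  have hsq0 : sq 0 = (4, 50, 50/81) := rfl
  have hsqs : ∀ i, sq (i+1) = f i (sq i) := fun i => rfl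
  have hgood : ∀ i, Good i (sq i) := by
    intro i
    induction i with
    | zero => exact h0
    | succ i ih => rw [hsqs]; exact hf1 i _ ih
  have hnext : ∀ i, Next i (sq i) (sq (i+1)) := by
    intro i; rw [hsqs]; exact hf2 i _ (hgood i)
  let lo : ℕ → ℝ := fun i => (sq i).2.2 + rad (sq i).1 (u i)
  let hi : ℕ → ℝ := fun i => (sq i).2.2 + 2 * rad (sq i).1 (u i)
  have hlo : Monotone lo := monotone_nat_of_le_succ fun i => (hnext i).1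
  have hhi : Antitone hi := antitone_nat_of_succ_le fun i => (hnext i).2.1
  have hlohi : lo ≤ hi := by
    intro i
    have := rad_pos (sq i).1 (u i)
    simp only [lo, hi]; linarith
  have hmem := hlo.ciSup_mem_iInter_Icc_of_antitone hhi hlohi
  set ξ := ⨆ n, lo n with hξ
  rw [Set.mem_iInter] at hmem
  refine ⟨fun i => (sq i).1, fun i => (sq i).2.1, fun i => (sq i).2.2, ξ, ?_, ?_, ?_, ?_, ?_, ?_,
    ?_, ?_, ?_, ?_⟩
  · intro halg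
    have : ξ ∈ Set.range z := by rw [← hz]; exact halg
    obtain ⟨i, hi'⟩ := this
    apply (hnext i).2.2.2.2
    rw [hi']
    exact ⟨(hmem (i+1)).1, (hmem (i+1)).2⟩
  · have h1 := (hmem 0).2
    have h2 := rad_le 4 (u 0) (hu 0)
    simp only [hi, hsq0] at h1
    norm_num at h2
    linarith
  · exact fun i => (hgood i).1
  · exact fun i => (hgood i).2.2.1
  · exact fun i => (hgood i).2.2.2
  · rfl
  · exact fun i => (hmem i).1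
  · exact fun i => (hmem i).2
  · exact fun i => (hnext i).2.2.1
  · exact fun i => (hnext i).2.2.2.1

end Pool.Agent.Lib.MP_9b3446_nt
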