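import Mathlib

/-!
# Mahler's and Koksma's exponents of Diophantine approximation

Definitions used in the statement on the exponents `w_{kn}(ξ)` and `w_n(ξ^k)`.
-/

set_option autoImplicit false

namespace Pool.Agent.Lib.MP_9b3446_nt

open Polynomial
open scoped NNReal ENNReal

/-- `H(P)`: the maximum of the absolute values of the coefficients of `P`. -/
noncomputable def height (P : ℤ[X]) : ℕ := P.support.sup fun i => (P.coeff i).natAbs

/-- The minimal polynomial over `ℤ` (integer coefficients, content `1`) of an algebraic number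
`α`: an integer multiple of the minimal polynomial over `ℚ` with integer coefficients, divided by
its content.  It is well defined up to sign. -/
noncomputable def intMinpoly (α : ℂ) : ℤ[X] :=
  (IsLocalization.integerNormalization (nonZeroDivisors ℤ) (minpoly ℚ α)).primPart

/-- Mahler's exponent `w_n(ξ)`: the supremum in `[0, ∞]` of the real `w ≥ 0` such that
`0 < |P(ξ)| ≤ H(P)^{-w}` holds for infinitely many nonzero integer polynomials `P` of degree
at most `n`. -/
noncomputable def mahlerExp (n : ℕ) (ξ : ℝ) : ℝ≥0∞ :=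
  ⨆ (w : ℝ≥0) (_ : {P : ℤ[X] | P ≠ 0 ∧ P.natDegree ≤ n ∧ 0 < |aeval ξ P| ∧
    |aeval ξ P| ≤ (height P : ℝ) ^ (-(w : ℝ))}.Infinite), (w : ℝ≥0∞)

/-- Koksma's exponent `w_n^*(ξ)`: the supremum in `[0, ∞]` of the real `w ≥ 0` such that
`0 < |ξ - α| ≤ H(α)^{-w-1}` holds for infinitely many complex algebraic numbers `α` of degree
at most `n`, where `H(α)` is the height of the minimal polynomial of `α` over `ℤ`. -/
noncomputable def koksmaExp (n : ℕ) (ξ : ℝ) : ℝ≥0∞ :=
  ⨆ (w : ℝ≥0) (_ : {α : ℂ | IsAlgebraic ℚ α ∧ (minpoly ℚ α).natDegree ≤ n ∧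
    0 < ‖(ξ : ℂ) - α‖ ∧
    ‖(ξ : ℂ) - α‖ ≤ (height (intMinpoly α) : ℝ) ^ (-(w : ℝ) - 1)}.Infinite), (w : ℝ≥0∞)

end Pool.Agent.Lib.MP_9b3446_nt
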