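import Pool.Agent.Lib.MP_9b3446_nt.D

set_option autoImplicit false

namespace Pool.Agent.Lib.MP_9b3446_nt

open Polynomial
open scoped NNReal ENNReal

lemma intMinpoly_ne_zero (α : ℂ) : intMinpoly α ≠ 0 := by
  unfold intMinpoly
  exact primPart_ne_zero _

lemma intMinpoly_isPrimitive (α : ℂ) : (intMinpoly α).IsPrimitive := by
  unfold intMinpoly
  exact isPrimitive_primPart _

lemma integerNormalization_minpoly_ne_zero {α : ℂ} (h : IsAlgebraic ℚ α) :
    IsLocalization.integerNormalization (nonZeroDivisors ℤ) (minpoly ℚ α) ≠ 0 := by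
  intro h0
  have := (IsLocalization.integerNormalization_eq_zero_iff le_rfl (minpoly ℚ α)).mp h0
  exact minpoly.ne_zero h.isIntegral this

lemma aeval_intMinpoly {α : ℂ} (h : IsAlgebraic ℚ α) : aeval α (intMinpoly α) = 0 := by
  unfold intMinpoly
  apply aeval_primPart_eq_zero (integerNormalization_minpoly_ne_zero h)
  apply IsLocalization.integerNormalization_aeval_eq_zero
  exact minpoly.aeval ℚ α

lemma exists_map_intMinpoly {α : ℂ} (h : IsAlgebraic ℚ α) : ∃ b : ℚ, b ≠ 0 ∧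
    (intMinpoly α).map (Int.castRingHom ℚ) = C b * minpoly ℚ α := by
  obtain ⟨b, hb, hb2⟩ := IsLocalization.integerNormalization_spec (nonZeroDivisors ℤ) (minpoly ℚ α)
  set Q := IsLocalization.integerNormalization (nonZeroDivisors ℤ) (minpoly ℚ α) with hQ
  have hQ0 : Q ≠ 0 := integerNormalization_minpoly_ne_zero h
  have hc : Q.content ≠ 0 := by rwa [Ne, content_eq_zero_iff]
  have hb0 : b ≠ 0 := nonZeroDivisors.ne_zero hb
  refine ⟨(b : ℚ) / Q.content, ?_, ?_⟩
  · have h1 : (b : ℚ) ≠ 0 := by exact_mod_cast hb0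
    have h2 : ((Q.content : ℤ) : ℚ) ≠ 0 := by exact_mod_cast hc
    exact div_ne_zero h1 h2
  · have h3 := Q.eq_C_content_mul_primPart
    have h4 : Q.map (Int.castRingHom ℚ) =
        C ((Q.content : ℤ) : ℚ) * (Q.primPart).map (Int.castRingHom ℚ) := by
      conv_lhs => rw [h3]
      rw [Polynomial.map_mul, map_C]; simp
    have h5 : Q.map (Int.castRingHom ℚ) = C (b : ℚ) * minpoly ℚ α := by
      rw [← algebraMap_int_eq, hb2]
      ext i; simp
    have h2 : ((Q.content : ℤ) : ℚ) ≠ 0 := by exact_mod_cast hc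
    have h6 : C ((Q.content : ℤ) : ℚ) * (intMinpoly α).map (Int.castRingHom ℚ) =
        C ((Q.content : ℤ) : ℚ) * (C ((b : ℚ) / Q.content) * minpoly ℚ α) := by
      rw [← mul_assoc, ← C_mul, mul_div_cancel₀ _ h2, ← h5, h4]
      rfl
    exact mul_left_cancel₀ (by simpa using h2) h6

lemma natDegree_intMinpoly {α : ℂ} (h : IsAlgebraic ℚ α) :
    (intMinpoly α).natDegree = (minpoly ℚ α).natDegree := by
  obtain ⟨b, hb, hb2⟩ := exists_map_intMinpoly h
  have h1 := congrArg natDegree hb2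
  rw [natDegree_map_eq_of_injective (Int.castRingHom ℚ).injective_int, natDegree_C_mul hb] at h1
  exact h1

/-- The polynomial `intMinpoly α` is the minimal polynomial of `α` over `ℤ`. -/
lemma eq_or_eq_neg_intMinpoly {α : ℂ} {P : ℤ[X]} (hirr : Irreducible P) (hprim : P.IsPrimitive)
    (h0 : aeval α P = 0) : intMinpoly α = P ∨ intMinpoly α = -P := by
  have hP0 : P ≠ 0 := hirr.ne_zero
  have halgZ : IsAlgebraic ℤ α := ⟨P, hP0, h0⟩
  have halg : IsAlgebraic ℚ α := by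
    refine ⟨P.map (Int.castRingHom ℚ), ?_, ?_⟩
    · exact (Polynomial.map_ne_zero_iff (Int.castRingHom ℚ).injective_int).mpr hP0
    · rw [← algebraMap_int_eq, aeval_map_algebraMap, h0]
  have hirrQ : Irreducible (P.map (Int.castRingHom ℚ)) :=
    (IsPrimitive.Int.irreducible_iff_irreducible_map_cast hprim).mp hirr
  have hdvd : minpoly ℚ α ∣ P.map (Int.castRingHom ℚ) := by
    apply minpoly.dvd
    rw [← algebraMap_int_eq, aeval_map_algebraMap, h0]
  have hass : Associated (minpoly ℚ α) (P.map (Int.castRingHom ℚ)) :=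
    (minpoly.irreducible halg.isIntegral).associated_of_dvd hirrQ hdvd
  obtain ⟨b, hb, hb2⟩ := exists_map_intMinpoly halg
  have hass2 : Associated ((intMinpoly α).map (Int.castRingHom ℚ)) (P.map (Int.castRingHom ℚ)) := by
    rw [hb2]
    have hu : IsUnit (C b : ℚ[X]) := by rw [isUnit_C]; exact IsUnit.mk0 _ hb
    exact (associated_unit_mul_left _ _ hu).trans hass
  have hd1 : intMinpoly α ∣ P := (IsPrimitive.Int.dvd_iff_map_cast_dvd_map_cast _ _
    (intMinpoly_isPrimitive α)).mpr hass2.dvd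
  have hd2 : P ∣ intMinpoly α := (IsPrimitive.Int.dvd_iff_map_cast_dvd_map_cast _ _
    hprim).mpr hass2.symm.dvd
  have hass3 : Associated P (intMinpoly α) := associated_of_dvd_dvd hd2 hd1
  obtain ⟨v, hv⟩ := hass3
  obtain ⟨r, hr, hr2⟩ := isUnit_iff.mp v.isUnit
  rcases Int.isUnit_iff.mp hr with h | h
  · left; rw [← hv, ← hr2, h]; simp
  · right; rw [← hv, ← hr2, h]; simp

lemma height_intMinpoly {α : ℂ} {P : ℤ[X]} (hirr : Irreducible P) (hprim : P.IsPrimitive)
    (h0 : aeval α P = 0) : height (intMinpoly α) = height P := by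
  rcases eq_or_eq_neg_intMinpoly hirr hprim h0 with h | h
  · rw [h]
  · rw [h, height_neg]

lemma isAlgebraic_of_int {α : ℂ} {P : ℤ[X]} (hP0 : P ≠ 0) (h0 : aeval α P = 0) :
    IsAlgebraic ℚ α := by
  refine ⟨P.map (Int.castRingHom ℚ), ?_, ?_⟩
  · exact (Polynomial.map_ne_zero_iff (Int.castRingHom ℚ).injective_int).mpr hP0
  · rw [← algebraMap_int_eq, aeval_map_algebraMap, h0]

lemma natDegree_minpoly {α : ℂ} {P : ℤ[X]} (hirr : Irreducible P) (hprim : P.IsPrimitive)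
    (h0 : aeval α P = 0) : (minpoly ℚ α).natDegree = P.natDegree := by
  rw [← natDegree_intMinpoly (isAlgebraic_of_int hirr.ne_zero h0)]
  rcases eq_or_eq_neg_intMinpoly hirr hprim h0 with h | h
  · rw [h]
  · rw [h, natDegree_neg]

/-- Upper bound for Mahler's exponent. -/
lemma mahlerExp_le (n : ℕ) (ζ w c : ℝ) (hw : 0 ≤ w) (hc : 0 < c)
    (hlow : ∀ P : ℤ[X], P ≠ 0 → P.natDegree ≤ n → c * (height P : ℝ) ^ (-w) ≤ |aeval ζ P|) :
    mahlerExp n ζ ≤ ENNReal.ofReal w := by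
  unfold mahlerExp
  refine iSup₂_le fun w₀ hinf => ?_
  by_contra hcon
  push Not at hcon
  have hlt : w < w₀ := by
    rw [ENNReal.ofReal_lt_coe_iff (by positivity)] at hcon
    exact hcon
  apply hinf
  have hd : 0 < (w₀ : ℝ) - w := by linarith
  obtain ⟨h, hh⟩ : ∃ h : ℕ, (1 / c) ^ (1 / ((w₀ : ℝ) - w)) ≤ h := exists_nat_ge _
  refine (finite_height_le n h).subset ?_
  rintro P ⟨hP, hdeg, _, hle⟩
  refine ⟨hdeg, ?_⟩
  have h1 := hlow P hP hdeg
  have hH : (1 : ℝ) ≤ height P := by exact_mod_cast one_le_height hP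
  have hHpos : (0 : ℝ) < height P := by linarith
  have h2 : c * (height P : ℝ) ^ (-w) ≤ (height P : ℝ) ^ (-(w₀ : ℝ)) := h1.trans hle
  have h3 : (height P : ℝ) ^ ((w₀ : ℝ) - w) ≤ 1 / c := by
    rw [le_div_iff₀ hc]
    have h4 : (0 : ℝ) < (height P : ℝ) ^ (w₀ : ℝ) := Real.rpow_pos_of_pos hHpos _
    calc (height P : ℝ) ^ ((w₀ : ℝ) - w) * c = (height P : ℝ) ^ (w₀ : ℝ) * (c * (height P : ℝ) ^ (-w)) := by
          rw [sub_eq_add_neg, Real.rpow_add hHpos]; ring
      _ ≤ (height P : ℝ) ^ (w₀ : ℝ) * (height P : ℝ) ^ (-(w₀ : ℝ)) := by gcongr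
      _ = 1 := by rw [← Real.rpow_add hHpos]; simp
  have h5 : (height P : ℝ) ≤ (1 / c) ^ (1 / ((w₀ : ℝ) - w)) := by
    have : (height P : ℝ) = ((height P : ℝ) ^ ((w₀ : ℝ) - w)) ^ (1 / ((w₀ : ℝ) - w)) := by
      rw [← Real.rpow_mul hHpos.le, mul_one_div_cancel hd.ne', Real.rpow_one]
    rw [this]
    apply Real.rpow_le_rpow (by positivity) h3 (by positivity)
  exact_mod_cast h5.trans hh

/-- Upper bound for Koksma's exponent. -/
lemma koksmaExp_le (n : ℕ) (ζ w c : ℝ) (hw : 0 ≤ w) (hc : 0 < c) (hζ : 0 ≤ ζ ∧ ζ ≤ 1)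
    (hlow : ∀ P : ℤ[X], P ≠ 0 → P.natDegree ≤ n → c * (height P : ℝ) ^ (-w) ≤ |aeval ζ P|) :
    koksmaExp n ζ ≤ ENNReal.ofReal w := by
  unfold koksmaExp
  refine iSup₂_le fun w₀ hinf => ?_
  by_contra hcon
  push Not at hcon
  have hlt : w < w₀ := by
    rw [ENNReal.ofReal_lt_coe_iff (by positivity)] at hcon
    exact hcon
  apply hinf
  have hd : 0 < (w₀ : ℝ) - w := by linarith
  obtain ⟨h, hh⟩ : ∃ h : ℕ, ((lip n : ℝ) / c) ^ (1 / ((w₀ : ℝ) - w)) ≤ h := exists_nat_ge _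
  have hfin : (⋃ P ∈ {P : ℤ[X] | P.natDegree ≤ n ∧ height P ≤ h},
      {x : ℂ | x ∈ (P.map (Int.castRingHom ℂ)).roots}).Finite := by
    apply Set.Finite.biUnion (finite_height_le n h)
    intro P _
    exact Multiset.finite_toSet _
  refine hfin.subset ?_
  rintro α ⟨halg, hdeg, _, hle⟩
  set P := intMinpoly α with hP
  have hP0 : P ≠ 0 := intMinpoly_ne_zero α
  have hPdeg : P.natDegree ≤ n := by rw [hP, natDegree_intMinpoly halg]; exact hdeg
  have hH : (1 : ℝ) ≤ height P := by exact_mod_cast one_le_height hP0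
  have hHpos : (0 : ℝ) < height P := by linarith
  have hPα : aeval α P = 0 := aeval_intMinpoly halg
  have hdist : ‖(ζ : ℂ) - α‖ ≤ 1 := by
    refine hle.trans ?_
    apply Real.rpow_le_one_of_one_le_of_nonpos hH
    have : (0 : ℝ) ≤ w₀ := w₀.2
    linarith
  have hζn : ‖(ζ : ℂ)‖ ≤ 1 := by
    rw [Complex.norm_real, Real.norm_eq_abs, abs_of_nonneg hζ.1]; exact hζ.2
  have hαn : ‖α‖ ≤ 2 := by
    have h1 : ‖α‖ ≤ ‖(ζ : ℂ)‖ + ‖(ζ : ℂ) - α‖ := by
      have := norm_sub_norm_le α (ζ : ℂ)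
      rw [norm_sub_rev] at this
      linarith
    linarith
  have h1 := hlow P hP0 hPdeg
  have h2 := norm_aeval_sub_le P n hPdeg (ζ : ℂ) α (by linarith) hαn
  rw [hPα, sub_zero] at h2
  have h3 : aeval (ζ : ℂ) P = ((aeval ζ P : ℝ) : ℂ) := by
    simpa using aeval_algebraMap_apply ℂ ζ P
  rw [h3, Complex.norm_real, Real.norm_eq_abs] at h2
  have h4 : c * (height P : ℝ) ^ (-w) ≤ lip n * (height P : ℝ) ^ (-(w₀ : ℝ)) := by
    calc c * (height P : ℝ) ^ (-w) ≤ |aeval ζ P| := h1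
      _ ≤ lip n * height P * ‖(ζ : ℂ) - α‖ := h2
      _ ≤ lip n * height P * (height P : ℝ) ^ (-(w₀ : ℝ) - 1) := by gcongr
      _ = lip n * (height P : ℝ) ^ (-(w₀ : ℝ)) := by
          rw [mul_assoc]
          congr 1
          calc (height P : ℝ) * (height P : ℝ) ^ (-(w₀ : ℝ) - 1)
              = (height P : ℝ) ^ (1 : ℝ) * (height P : ℝ) ^ (-(w₀ : ℝ) - 1) := by rw [Real.rpow_one]
            _ = _ := by rw [← Real.rpow_add hHpos]; congr 1; ring
  have h3 : (height P : ℝ) ^ ((w₀ : ℝ) - w) ≤ lip n / c := by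
    rw [le_div_iff₀ hc]
    have h5 : (0 : ℝ) < (height P : ℝ) ^ (w₀ : ℝ) := Real.rpow_pos_of_pos hHpos _
    calc (height P : ℝ) ^ ((w₀ : ℝ) - w) * c = (height P : ℝ) ^ (w₀ : ℝ) * (c * (height P : ℝ) ^ (-w)) := by
          rw [sub_eq_add_neg, Real.rpow_add hHpos]; ring
      _ ≤ (height P : ℝ) ^ (w₀ : ℝ) * (lip n * (height P : ℝ) ^ (-(w₀ : ℝ))) := by gcongr
      _ = lip n * ((height P : ℝ) ^ (w₀ : ℝ) * (height P : ℝ) ^ (-(w₀ : ℝ))) := by ring
      _ = lip n := by rw [← Real.rpow_add hHpos]; simp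
  have h5 : (height P : ℝ) ≤ ((lip n : ℝ) / c) ^ (1 / ((w₀ : ℝ) - w)) := by
    have : (height P : ℝ) = ((height P : ℝ) ^ ((w₀ : ℝ) - w)) ^ (1 / ((w₀ : ℝ) - w)) := by
      rw [← Real.rpow_mul hHpos.le, mul_one_div_cancel hd.ne', Real.rpow_one]
    rw [this]
    apply Real.rpow_le_rpow (by positivity) h3 (by positivity)
  have h6 : height P ≤ h := by exact_mod_cast h5.trans hh
  rw [Set.mem_iUnion₂]
  refine ⟨P, ⟨hPdeg, h6⟩, ?_⟩
  rw [Set.mem_ofPred_eq, mem_roots, IsRoot.def, eval_map, eval₂_castC, hPα]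
  exact (Polynomial.map_ne_zero_iff (Int.castRingHom ℂ).injective_int).mpr hP0

/-- Lower bounds for both exponents from a sequence of good approximations. -/
lemma le_exponents (n : ℕ) (ζ w c Cc : ℝ) (hc : 0 < c) (hζ : 0 ≤ ζ ∧ ζ ≤ 1)
    (hlow : ∀ P : ℤ[X], P ≠ 0 → P.natDegree ≤ n → c * (height P : ℝ) ^ (-w) ≤ |aeval ζ P|)
    (G g : ℕ → ℕ) (e : ℕ) (β : ℕ → ℝ) (hmono : StrictMono G) (hG : ∀ i, 0 < G i)
    (hg : ∀ i, g i ≤ G i) (he : 1 ≤ e) (hen : e ≤ n)
    (hirr : ∀ i, Irreducible (binom (G i) (g i) e))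
    (hprim : ∀ i, (binom (G i) (g i) e).IsPrimitive)
    (hβ01 : ∀ i, 0 ≤ β i ∧ β i ≤ 1)
    (hβ : ∀ i, (G i : ℝ) * β i ^ e = g i)
    (hclose : ∀ i, |ζ - β i| ≤ Cc * (G i : ℝ) ^ (-w - 1)) :
    ENNReal.ofReal w ≤ mahlerExp n ζ ∧ ENNReal.ofReal w ≤ koksmaExp n ζ := by
  have hCc : 0 ≤ Cc := by
    have h1 := hclose 0
    have h2 : (0 : ℝ) < (G 0 : ℝ) ^ (-w - 1) := by
      have := hG 0; positivity
    by_contra hcon
    push Not at hcon
    have h3 := abs_nonneg (ζ - β 0)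
    nlinarith
  have hbeta0 : ∀ i, aeval (β i) (binom (G i) (g i) e) = 0 := by
    intro i; rw [aeval_binom_real, hβ i]; ring
  have hne : ∀ i, 0 < |aeval ζ (binom (G i) (g i) e)| := by
    intro i
    have h1 := hlow (binom (G i) (g i) e) (binom_ne_zero (hG i) he)
      (by rw [natDegree_binom (hG i) he]; exact hen)
    rw [height_binom (hg i) he] at h1
    have hGi := hG i
    have : 0 < c * (G i : ℝ) ^ (-w) := by positivity
    linarith
  have hsmall : ∀ i, |aeval ζ (binom (G i) (g i) e)| ≤ lip n * Cc * (G i : ℝ) ^ (-w) := by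
    intro i
    have h1 := abs_aeval_sub_le (binom (G i) (g i) e) n
      (by rw [natDegree_binom (hG i) he]; exact hen) ζ (β i)
      (by rw [abs_le]; constructor <;> linarith)
      (by rw [abs_le]; constructor <;> linarith [(hβ01 i).1, (hβ01 i).2])
    rw [hbeta0 i, sub_zero, height_binom (hg i) he] at h1
    have hGi : (0 : ℝ) < G i := by exact_mod_cast hG i
    calc |aeval ζ (binom (G i) (g i) e)| ≤ lip n * G i * |ζ - β i| := h1
      _ ≤ lip n * G i * (Cc * (G i : ℝ) ^ (-w - 1)) := by gcongr; exact hclose i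
      _ = lip n * Cc * ((G i : ℝ) ^ (1 : ℝ) * (G i : ℝ) ^ (-w - 1)) := by rw [Real.rpow_one]; ring
      _ = lip n * Cc * (G i : ℝ) ^ (-w) := by rw [← Real.rpow_add hGi]; congr 2; ring
  -- eventually C * G^{-w} ≤ G^{-w₀}
  have hev : ∀ (w₀ : ℝ) (B : ℝ), w₀ < w → ∃ i₀, ∀ i, i₀ ≤ i →
      B * (G i : ℝ) ^ (-w) ≤ (G i : ℝ) ^ (-w₀) := by
    intro w₀ B hlt
    have htend : Filter.Tendsto (fun i => ((G i : ℕ) : ℝ) ^ (w - w₀)) Filter.atTop Filter.atTop :=
      (tendsto_rpow_atTop (by linarith)).comp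
        (tendsto_natCast_atTop_atTop.comp hmono.tendsto_atTop)
    obtain ⟨i₀, hi₀⟩ := Filter.eventually_atTop.mp (htend.eventually_ge_atTop B)
    refine ⟨i₀, fun i hi => ?_⟩
    have hGi : (0 : ℝ) < G i := by exact_mod_cast hG i
    calc B * (G i : ℝ) ^ (-w) ≤ (G i : ℝ) ^ (w - w₀) * (G i : ℝ) ^ (-w) := by
          gcongr; exact hi₀ i hi
      _ = (G i : ℝ) ^ (-w₀) := by rw [← Real.rpow_add hGi]; congr 1; ring
  constructor
  · apply ENNReal.le_of_forall_nnreal_lt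
    intro w₀ hw₀
    have hlt : (w₀ : ℝ) < w := by
      rw [ENNReal.lt_ofReal_iff_toReal_lt ENNReal.coe_ne_top] at hw₀
      simpa using hw₀
    unfold mahlerExp
    refine le_iSup₂_of_le w₀ ?_ le_rfl
    obtain ⟨i₀, hi₀⟩ := hev w₀ (lip n * Cc) hlt
    have hinj : Function.Injective (fun j => binom (G (j + i₀)) (g (j + i₀)) e) := by
      intro j j' hjj
      have h1 := congrArg height hjj
      simp only [height_binom (hg _) he] at h1
      have := hmono.injective h1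
      omega
    refine Set.infinite_of_injective_forall_mem hinj ?_
    intro j
    refine ⟨binom_ne_zero (hG _) he, by rw [natDegree_binom (hG _) he]; exact hen, hne _, ?_⟩
    rw [height_binom (hg _) he]
    exact (hsmall _).trans (hi₀ _ (by omega))
  · apply ENNReal.le_of_forall_nnreal_lt
    intro w₀ hw₀
    have hlt : (w₀ : ℝ) < w := by
      rw [ENNReal.lt_ofReal_iff_toReal_lt ENNReal.coe_ne_top] at hw₀
      simpa using hw₀
    unfold koksmaExp
    refine le_iSup₂_of_le w₀ ?_ le_rfl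
    obtain ⟨i₀, hi₀⟩ := hev w₀ Cc hlt
    have hroot : ∀ i, aeval ((β i : ℝ) : ℂ) (binom (G i) (g i) e) = 0 := by
      intro i
      have : aeval ((β i : ℝ) : ℂ) (binom (G i) (g i) e) =
          ((aeval (β i) (binom (G i) (g i) e) : ℝ) : ℂ) := by
        simpa using aeval_algebraMap_apply ℂ (β i) (binom (G i) (g i) e)
      rw [this, hbeta0 i]; simp
    have hheight : ∀ i, height (intMinpoly ((β i : ℝ) : ℂ)) = G i := by
      intro i
      rw [height_intMinpoly (hirr i) (hprim i) (hroot i), height_binom (hg i) he]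
    have hinj : Function.Injective (fun j => ((β (j + i₀) : ℝ) : ℂ)) := by
      intro j j' hjj
      have h1 := congrArg (fun x => height (intMinpoly x)) hjj
      simp only [hheight] at h1
      have := hmono.injective h1
      omega
    refine Set.infinite_of_injective_forall_mem hinj ?_
    intro j
    set i := j + i₀ with hi
    have hGi : (0 : ℝ) < G i := by exact_mod_cast hG i
    have hnorm : ‖(ζ : ℂ) - ((β i : ℝ) : ℂ)‖ = |ζ - β i| := by
      rw [← Complex.ofReal_sub, Complex.norm_real, Real.norm_eq_abs]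
    refine ⟨isAlgebraic_of_int (hirr i).ne_zero (hroot i), ?_, ?_, ?_⟩
    · rw [natDegree_minpoly (hirr i) (hprim i) (hroot i), natDegree_binom (hG i) he]; exact hen
    · rw [hnorm, abs_pos]
      intro h0
      have h1 := hne i
      have h2 : ζ = β i := by linarith
      rw [h2, hbeta0 i] at h1
      simp at h1
    · rw [hnorm, hheight]
      calc |ζ - β i| ≤ Cc * (G i : ℝ) ^ (-w - 1) := hclose i
        _ = (Cc * (G i : ℝ) ^ (-w)) * (G i : ℝ) ^ (-1 : ℝ) := by
            rw [mul_assoc, ← Real.rpow_add hGi]; congr 2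
        _ ≤ (G i : ℝ) ^ (-(w₀ : ℝ)) * (G i : ℝ) ^ (-1 : ℝ) := by
            have := hi₀ i (by omega)
            gcongr
        _ = (G i : ℝ) ^ (-(w₀ : ℝ) - 1) := by rw [← Real.rpow_add hGi]; congr 1

end Pool.Agent.Lib.MP_9b3446_nt
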